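import Pool.Agent.W_MP_9f93d5_co.Numeric

namespace Pool.Agent.Results.MP_9f93d5_co.LazyCopsLargeDegree

open Pool.Agent.W_MP_9f93d5_co

/-- The statement of Q1 fails for `k`: some connected finite graph on `n` vertices with maximum
degree `Δ ≥ n - k²` has lazy cop number at least `k + 1`. -/
def Fails (k : ℕ) : Prop :=
  ∃ (V : Type) (_ : Fintype V) (G : SimpleGraph V) (_ : DecidableRel G.Adj),
    G.Connected ∧ Fintype.card V ≤ k ^ 2 + G.maxDegree ∧ k + 1 ≤ lazyCopNumber G

open Classical in
theorem fails_of_field (F : Type) [Field F] [Fintype F] (k : ℕ) (hq : 3 ≤ Fintype.card F)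
    (hn : 2 * Fintype.card F ^ 3 ≤ k ^ 2 + Fintype.card F)
    (hgood : ∀ m ≤ k, ∃ S, Good (Fintype.card F) m S) : Fails k := by
  have hne : ∃ α : F, α ≠ 0 ∧ α ≠ 1 := by
    by_contra hcon
    push Not at hcon
    have hsub : (Finset.univ : Finset F) ⊆ {0, 1} := by
      intro x _
      by_cases hx : x = 0
      · simp [hx]
      · simp [hcon x hx]
    have h1 := Finset.card_le_card hsub
    have h2 : ({0, 1} : Finset F).card ≤ 2 := Finset.card_le_two
    rw [Finset.card_univ] at h1
    omega
  have hconn := graphD_connected (F := F) hne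
  refine ⟨Bool × F × F × F, inferInstance, graphD F, Classical.decRel _, hconn, ?_, ?_⟩
  · have hcard : Fintype.card (Bool × F × F × F) = 2 * Fintype.card F ^ 3 := by
      rw [Fintype.card_prod, Fintype.card_prod, Fintype.card_prod, Fintype.card_bool]
      ring
    rw [hcard]
    refine hn.trans (Nat.add_le_add_left ?_ _)
    obtain ⟨N, hN, hNc⟩ := (goodGraph (F := F)).deg (false, 0, 0, 0)
    rw [← hNc]
    refine le_trans ?_ ((graphD F).degree_le_maxDegree (false, 0, 0, 0))
    rw [← SimpleGraph.card_neighborFinset_eq_degree]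
    apply Finset.card_le_card
    intro u hu
    rw [SimpleGraph.mem_neighborFinset]
    exact hN u hu
  · unfold lazyCopNumber
    refine le_csInf ?_ ?_
    · refine ⟨Fintype.card (Bool × F × F × F),
        (Fintype.equivFin (Bool × F × F × F)).symm, fun r => ?_⟩
      exact CopsWin.capture _ _ r (Or.inl rfl) (Fintype.equivFin _ r)
        (Equiv.symm_apply_apply _ _)
    · intro m hm
      by_contra hcon
      obtain ⟨S, hS⟩ := hgood m (by omega)
      exact not_lazyCopsWin (goodGraph (F := F)) hS hconn _ _ (start_pair (F := F)) hm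

theorem fails_formula (F : Type) [Field F] [Fintype F] (q k : ℕ) (hF : Fintype.card F = q)
    (hq : 3 ≤ q) (hn : 2 * q ^ 3 ≤ k ^ 2 + q) (hk : 2 * k ≤ (q - 1) ^ 2) : Fails k := by
  subst hF
  refine fails_of_field F k hq hn (fun m hm => good_formula _ m hq ?_)
  omega

theorem fails_prime (q k : ℕ) (hp : q.Prime)
    (hq : 3 ≤ q) (hn : 2 * q ^ 3 ≤ k ^ 2 + q) (hk : 2 * k ≤ (q - 1) ^ 2) : Fails k := by
  have : Fact q.Prime := ⟨hp⟩
  exact fails_formula (ZMod q) q k (ZMod.card q) hq hn hk

/-- Q1 fails for `52 ≤ k ≤ 55`, for `67 ≤ k ≤ 78` and for all `k ≥ 91`. -/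
theorem result : ∀ k : ℕ, ((52 ≤ k ∧ k ≤ 55) ∨ (67 ≤ k ∧ k ≤ 78) ∨ 91 ≤ k) → Fails k := by
  intro k hk
  rcases hk with ⟨h1, h2⟩ | ⟨h1, h2⟩ | h
  · have : Fact (Nat.Prime 11) := ⟨by norm_num⟩
    have hc : Fintype.card (ZMod 11) = 11 := ZMod.card 11
    refine fails_of_field (ZMod 11) k (by rw [hc]; norm_num) (by rw [hc]; nlinarith) ?_
    intro m hm
    rw [hc]
    exact good_11 m (by omega)
  · have : Fact (Nat.Prime 13) := ⟨by norm_num⟩
    have hc : Fintype.card (ZMod 13) = 13 := ZMod.card 13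
    refine fails_of_field (ZMod 13) k (by rw [hc]; norm_num) (by rw [hc]; nlinarith) ?_
    intro m hm
    rw [hc]
    exact good_13 m (by omega)
  · by_cases h112 : k ≤ 112
    · have : Fintype (GaloisField 2 4) := Fintype.ofFinite _
      have hc : Fintype.card (GaloisField 2 4) = 16 := by
        rw [← Nat.card_eq_fintype_card, GaloisField.card 2 4 (by norm_num)]
        norm_num
      exact fails_formula (GaloisField 2 4) 16 k hc (by norm_num) (by nlinarith) (by norm_num; omega)
    by_cases h128 : k ≤ 128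
    · exact fails_prime 17 k (by norm_num) (by norm_num) (by nlinarith) (by norm_num; omega)
    by_cases h162 : k ≤ 162
    · exact fails_prime 19 k (by norm_num) (by norm_num) (by nlinarith) (by norm_num; omega)
    by_cases h242 : k ≤ 242
    · exact fails_prime 23 k (by norm_num) (by norm_num) (by nlinarith) (by norm_num; omega)
    by_cases h392 : k ≤ 392
    · exact fails_prime 29 k (by norm_num) (by norm_num) (by nlinarith) (by norm_num; omega)
    by_cases h648 : k ≤ 648
    · exact fails_prime 37 k (by norm_num) (by norm_num) (by nlinarith) (by norm_num; omega)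
    by_cases h1682 : k ≤ 1682
    · exact fails_prime 59 k (by norm_num) (by norm_num) (by nlinarith) (by norm_num; omega)
    by_cases h3362 : k ≤ 3362
    · exact fails_prime 83 k (by norm_num) (by norm_num) (by nlinarith) (by norm_num; omega)
    -- Bertrand's postulate
    set s := Nat.sqrt (2 * k) with hs
    have hs1 : s * s ≤ 2 * k := Nat.sqrt_le _
    have hs2 : 2 * k < (s + 1) * (s + 1) := Nat.lt_succ_sqrt _
    have hs82 : 82 ≤ s := by
      by_contra hcon
      push Not at hcon
      have : (s + 1) * (s + 1) ≤ 82 * 82 := Nat.mul_le_mul (by omega) (by omega)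
      omega
    obtain ⟨p, hp, hp1, hp2⟩ := Nat.exists_prime_lt_and_le_two_mul (s + 1) (by omega)
    refine fails_prime p k hp (by omega) ?_ ?_
    · have h1 : 2 * p ^ 3 ≤ 16 * (s + 1) ^ 3 := by
        calc 2 * p ^ 3 ≤ 2 * (2 * (s + 1)) ^ 3 :=
              Nat.mul_le_mul_left _ (Nat.pow_le_pow_left hp2 3)
          _ = 16 * (s + 1) ^ 3 := by ring
      have h2 : 64 * (s + 1) ^ 3 ≤ s ^ 4 := by
        obtain ⟨t, ht⟩ : ∃ t, s = 82 + t := ⟨s - 82, by omega⟩
        rw [ht]
        ring_nf
        nlinarith [Nat.zero_le (t ^ 4), Nat.zero_le (t ^ 3), Nat.zero_le (t ^ 2), Nat.zero_le t]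
      have h3 : s ^ 4 ≤ 4 * k ^ 2 := by
        calc s ^ 4 = (s * s) ^ 2 := by ring
          _ ≤ (2 * k) ^ 2 := Nat.pow_le_pow_left hs1 2
          _ = 4 * k ^ 2 := by ring
      omega
    · have h1 : s + 1 ≤ p - 1 := by omega
      have h2 : (s + 1) ^ 2 ≤ (p - 1) ^ 2 := Nat.pow_le_pow_left h1 2
      have h3 : (s + 1) * (s + 1) = (s + 1) ^ 2 := by ring
      omega

end Pool.Agent.Results.MP_9f93d5_co.LazyCopsLargeDegree
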